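import Pool.Agent.R775.SSE.Defs

/-!
# Explicit chains of elementary equivalences between the matrices `B T a`
-/

set_option autoImplicit false

namespace Pool.Agent.R775.SSE

open Matrix

theorem Elem.symm {X Y : Σ n : ℕ, Matrix (Fin n) (Fin n) ℕ} (h : Elem X Y) : Elem Y X := by
  obtain ⟨R, S, h1, h2⟩ := h
  exact ⟨S, R, h2, h1⟩

theorem Chain.trans {k l : ℕ} {X Y Z : Σ n : ℕ, Matrix (Fin n) (Fin n) ℕ} (h : Chain k X Y)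
    (h' : Chain l Y Z) : Chain (k + l) X Z := by
  induction k generalizing X with
  | zero =>
    have e : X = Y := h
    rw [Nat.zero_add, e]; exact h'
  | succ k ih =>
    obtain ⟨W, h1, h2⟩ := h
    rw [Nat.succ_add]
    exact ⟨W, h1, ih h2⟩

theorem Chain.single {X Y : Σ n : ℕ, Matrix (Fin n) (Fin n) ℕ} (h : Elem X Y) : Chain 1 X Y :=
  ⟨Y, h, rfl⟩

theorem Chain.symm {k : ℕ} {X Y : Σ n : ℕ, Matrix (Fin n) (Fin n) ℕ} (h : Chain k X Y) :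
    Chain k Y X := by
  induction k generalizing X with
  | zero =>
    have e : X = Y := h
    exact e.symm
  | succ k ih =>
    obtain ⟨W, h1, h2⟩ := h
    exact (ih h2).trans (Chain.single h1.symm)

theorem chain2 {X0 X1 X2 : Matrix (Fin 3) (Fin 3) ℕ} (h1 : Elem ⟨3, X0⟩ ⟨3, X1⟩)
    (h2 : Elem ⟨3, X1⟩ ⟨3, X2⟩) : Chain 2 ⟨3, X0⟩ ⟨3, X2⟩ := ⟨_, h1, _, h2, rfl⟩

/-- an elementary equivalence between `3 × 3` matrices -/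
theorem el {X Y : Matrix (Fin 3) (Fin 3) ℕ} (R S : Matrix (Fin 3) (Fin 3) ℕ) (h1 : X = R * S)
    (h2 : Y = S * R) : Elem ⟨3, X⟩ ⟨3, Y⟩ := ⟨R, S, h1, h2⟩

/-- type 1: `2 a ≤ T - 4` -/
theorem chain_one (a k : ℕ) : Chain 2 ⟨3, !![a + 2, a, 0; a + 2 + k, a + 4 + k, 1; 1, 1, 0]⟩
    ⟨3, !![2 * a + 2, 2 * a, 0; k + 2, k + 4, 1; 1, 1, 0]⟩ := by
  refine chain2 (X1 := !![2 * a + 2, a, 0; 2 * k + 4, k + 4, 1; 2, 1, 0])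
    (el !![1, 0, 0; 1, 1, 0; 0, 0, 1] !![a + 2, a, 0; k, k + 4, 1; 1, 1, 0] ?_ ?_)
    (el !![a + 1, a, 0; k + 2, k + 4, 1; 1, 1, 0] !![2, 0, 0; 0, 1, 0; 0, 0, 1] ?_ ?_) <;>
    (ext i j; fin_cases i <;> fin_cases j <;>
      simp [Matrix.mul_apply, Fin.sum_univ_three] <;> ring)

/-- type 2: `2 a ≥ T + 1` -/
theorem chain_two (b k : ℕ) :
    Chain 4 ⟨3, !![b + 5 + k, b + 3 + k, 0; b, b + 2, 1; 1, 1, 0]⟩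
    ⟨3, !![2 * b + 3, 2 * b + 1, 0; k + 2, k + 4, 1; 1, 1, 0]⟩ := by
  refine ⟨⟨3, !![b + 4 + k, b + 2 + k, b + 4 + k; b, b + 2, b + 1; 1, 1, 1]⟩,
    el !![1, 0, 1; 0, 1, 0; 0, 0, 1] !![b + 4 + k, b + 2 + k, 0; b, b + 2, 1; 1, 1, 0] ?_ ?_,
    ⟨3, !![4 + k, 4 + 2 * k, 3 + k; b, 2 * b + 2, b + 1; 1, 2, 1]⟩,
    el !![1, 1, 0; 0, 1, 0; 0, 0, 1] !![4 + k, k, 3 + k; b, b + 2, b + 1; 1, 1, 1] ?_ ?_,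
    ⟨3, !![4 + k, 2 + k, 3 + k; 2 * b, 2 * b + 2, 2 * b + 2; 1, 1, 1]⟩,
    el !![4 + k, 2 + k, 3 + k; b, b + 1, b + 1; 1, 1, 1] !![1, 0, 0; 0, 2, 0; 0, 0, 1] ?_ ?_,
    _,
    el !![2 + k, 4 + k, 1; 2 * b + 2, 2 * b, 0; 1, 1, 0] !![0, 1, 1; 1, 0, 0; 0, 0, 1] ?_ ?_,
    rfl⟩ <;>
    (ext i j; fin_cases i <;> fin_cases j <;>
      simp [Matrix.mul_apply, Fin.sum_univ_three] <;> ring)

/-- type 3: `2 a = T` -/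
theorem chain_three (u : ℕ) :
    Chain 7 ⟨3, !![u + 5, u + 3, 0; u + 1, u + 3, 1; 1, 1, 0]⟩
    ⟨3, !![2 * u + 5, 2 * u + 3, 0; 1, 3, 1; 1, 1, 0]⟩ := by
  refine ⟨⟨3, !![u + 4, u + 2, u + 4; u + 1, u + 3, u + 2; 1, 1, 1]⟩,
    el !![1, 0, 1; 0, 1, 0; 0, 0, 1] !![u + 4, u + 2, 0; u + 1, u + 3, 1; 1, 1, 0] ?_ ?_,
    ⟨3, !![u + 4, u + 2, 2 * u + 6; u, u + 2, 2 * u + 3; 1, 1, 2]⟩,
    el !![1, 0, 0; 0, 1, 1; 0, 0, 1] !![u + 4, u + 2, u + 4; u, u + 2, u + 1; 1, 1, 1] ?_ ?_,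
    ⟨3, !![4, 4, 3; u, 2 * u + 2, 2 * u + 3; 1, 2, 2]⟩,
    el !![1, 1, 0; 0, 1, 0; 0, 0, 1] !![4, 0, 3; u, u + 2, 2 * u + 3; 1, 1, 2] ?_ ?_,
    ⟨3, !![3, 2, 4; u, 2 * u + 2, 3 * u + 3; 1, 2, 3]⟩,
    el !![1, 0, 1; 0, 1, 0; 0, 0, 1] !![3, 2, 1; u, 2 * u + 2, 2 * u + 3; 1, 2, 2] ?_ ?_,
    ⟨3, !![3, 2, 2; u + 1, 2 * u + 4, u + 2; 1, 2, 1]⟩,
    el !![3, 2, 2; u, 2 * u + 2, u + 1; 1, 2, 1] !![1, 0, 0; 0, 1, 1; 0, 0, 1] ?_ ?_,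
    ⟨3, !![3, 1, 2; 2 * u + 2, 2 * u + 4, 2 * u + 4; 1, 1, 1]⟩,
    el !![3, 1, 2; u + 1, u + 2, u + 2; 1, 1, 1] !![1, 0, 0; 0, 2, 0; 0, 0, 1] ?_ ?_,
    _,
    el !![1, 3, 1; 2 * u + 4, 2 * u + 2, 0; 1, 1, 0] !![0, 1, 1; 1, 0, 0; 0, 0, 1] ?_ ?_,
    rfl⟩ <;>
    (ext i j; fin_cases i <;> fin_cases j <;>
      simp [Matrix.mul_apply, Fin.sum_univ_three] <;> ring)

/-- type 4: `2 a = T - 3` -/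
theorem chain_four (u : ℕ) :
    Chain 5 ⟨3, !![u + 3, u + 1, 0; u + 2, u + 4, 1; 1, 1, 0]⟩
    ⟨3, !![2 * u + 4, 2 * u + 2, 0; 1, 3, 1; 1, 1, 0]⟩ := by
  refine ⟨⟨3, !![u + 3, u + 1, 0; u + 2, u + 3, 1; u + 3, u + 4, 1]⟩,
    el !![u + 3, u + 1, 0; u + 2, u + 3, 1; 1, 1, 0] !![1, 0, 0; 0, 1, 0; 0, 1, 1] ?_ ?_,
    ⟨3, !![u + 3, u + 1, 0; u + 3, u + 3, 1; 1, 3, 1]⟩,
    el !![1, 0, 0; 0, 1, 0; 1, 0, 1] !![u + 3, u + 1, 0; u + 2, u + 3, 1; 0, 3, 1] ?_ ?_,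
    ⟨3, !![2 * u + 4, u + 1, 0; 2, 2, 1; 4, 3, 1]⟩,
    el !![1, 0, 0; 1, 1, 0; 0, 0, 1] !![u + 3, u + 1, 0; 0, 2, 1; 1, 3, 1] ?_ ?_,
    ⟨3, !![2 * u + 4, u + 1, 0; 2, 3, 1; 2, 1, 0]⟩,
    el !![1, 0, 0; 0, 1, 0; 0, 1, 1] !![2 * u + 4, u + 1, 0; 2, 2, 1; 2, 1, 0] ?_ ?_,
    _,
    el !![u + 2, u + 1, 0; 1, 3, 1; 1, 1, 0] !![2, 0, 0; 0, 1, 0; 0, 0, 1] ?_ ?_,
    rfl⟩ <;>
    (ext i j; fin_cases i <;> fin_cases j <;>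
      simp [Matrix.mul_apply, Fin.sum_univ_three] <;> ring)

end Pool.Agent.R775.SSE
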