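import Mathlib

/-!
# Strong shift equivalence and shift equivalence, and a family of primitive `3 × 3` matrices
-/

set_option autoImplicit false

namespace Pool.Agent.R775.SSE

open Matrix

/-- Elementary equivalence of square matrices over `ℕ`: `A = R S`, `B = S R` for rectangular
matrices `R`, `S` over `ℕ`. -/
def Elem (X Y : Σ n : ℕ, Matrix (Fin n) (Fin n) ℕ) : Prop :=
  ∃ (R : Matrix (Fin X.1) (Fin Y.1) ℕ) (S : Matrix (Fin Y.1) (Fin X.1) ℕ),
    X.2 = R * S ∧ Y.2 = S * R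

/-- `X` and `Y` are joined by a chain of `k` elementary equivalences (the intermediate matrices may
have any size). -/
def Chain : ℕ → (Σ n : ℕ, Matrix (Fin n) (Fin n) ℕ) → (Σ n : ℕ, Matrix (Fin n) (Fin n) ℕ) → Prop
  | 0, X, Y => X = Y
  | k + 1, X, Y => ∃ Z, Elem X Z ∧ Chain k Z Y

/-- Strong shift equivalence over `ℕ`: a finite chain of elementary equivalences. -/
def SSE {n m : ℕ} (A : Matrix (Fin n) (Fin n) ℕ) (B : Matrix (Fin m) (Fin m) ℕ) : Prop :=
  ∃ k, Chain k ⟨n, A⟩ ⟨m, B⟩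

/-- `R, S` is a shift equivalence of lag `l` over the semiring `k` from `A` to `B`. -/
def IsSE (k : Type) [Semiring k] {n m : ℕ} (A : Matrix (Fin n) (Fin n) k)
    (B : Matrix (Fin m) (Fin m) k) (l : ℕ) (R : Matrix (Fin n) (Fin m) k)
    (S : Matrix (Fin m) (Fin n) k) : Prop :=
  A ^ l = R * S ∧ B ^ l = S * R ∧ A * R = R * B ∧ S * A = B * S

/-- Shift equivalence over the semiring `k` (used for `k = ℕ` and `k = ℤ`). -/
def SE (k : Type) [Semiring k] {n m : ℕ} (A : Matrix (Fin n) (Fin n) k)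
    (B : Matrix (Fin m) (Fin m) k) : Prop :=
  ∃ l, 1 ≤ l ∧ ∃ (R : Matrix (Fin n) (Fin m) k) (S : Matrix (Fin m) (Fin n) k), IsSE k A B l R S

/-- The matrix `B T a`; its eigenvalues are `2` and the two roots of `x² = T x + 1`. -/
def B (T a : ℕ) : Matrix (Fin 3) (Fin 3) ℕ := !![a + 2, a, 0; T - 2 - a, T - a, 1; 1, 1, 0]

/-- The matrix `A` over `ℕ` regarded as a matrix over `ℤ`. -/
def toZ {n : ℕ} (A : Matrix (Fin n) (Fin n) ℕ) : Matrix (Fin n) (Fin n) ℤ :=
  A.map (Nat.cast : ℕ → ℤ)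

end Pool.Agent.R775.SSE
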