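import Pool.Agent.R775.SSE.Defs

/-!
# Invariants of shift equivalences between the matrices `B T a`
-/

set_option autoImplicit false

namespace Pool.Agent.R775.SSE

open Matrix

/-- the matrix `B T a` over `ℤ` -/
def Bz (T a : ℤ) : Matrix (Fin 3) (Fin 3) ℤ := !![a + 2, a, 0; T - 2 - a, T - a, 1; 1, 1, 0]

/-- the companion matrix of `x² - T x - 1` -/
def C (T : ℤ) : Matrix (Fin 2) (Fin 2) ℤ := !![T, 1; 1, 0]

/-- the matrix `x + y C` -/
def U (T x y : ℤ) : Matrix (Fin 2) (Fin 2) ℤ := !![x + T * y, y; y, x]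

def Pi : Matrix (Fin 2) (Fin 3) ℤ := !![1, 1, 0; 0, 0, 1]
def Sg : Matrix (Fin 3) (Fin 2) ℤ := !![0, 0; 1, 0; 0, 1]

theorem Pi_Sg : Pi * Sg = 1 := by
  ext i j; fin_cases i <;> fin_cases j <;> simp [Pi, Sg, Matrix.mul_apply, Fin.sum_univ_three]

theorem Pi_B (T a : ℤ) : Pi * Bz T a = C T * Pi := by
  ext i j; fin_cases i <;> fin_cases j <;>
    simp [Pi, Bz, C, Matrix.mul_apply, Fin.sum_univ_three, Fin.sum_univ_two] <;> ring

theorem Pi_pow (T a : ℤ) (l : ℕ) : Pi * Bz T a ^ l = C T ^ l * Pi := by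
  induction l with
  | zero => simp
  | succ l ih =>
    rw [pow_succ, pow_succ, ← Matrix.mul_assoc, ih, Matrix.mul_assoc, Pi_B, Matrix.mul_assoc]

/-- the functional `M ↦ (M v)_0`, `v = (1, -1, 0)` -/
theorem pow_v (T a : ℤ) (l : ℕ) :
    Bz T a ^ l *ᵥ ![1, -1, 0] = (2 : ℤ) ^ l • ![1, -1, 0] := by
  induction l with
  | zero => simp
  | succ l ih =>
    rw [pow_succ, ← Matrix.mulVec_mulVec]
    have : Bz T a *ᵥ ![1, -1, 0] = (2 : ℤ) • ![1, -1, 0] := by
      ext i; fin_cases i <;> simp [Bz, Matrix.mulVec, dotProduct, Fin.sum_univ_three] <;> ring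
    rw [this, Matrix.mulVec_smul, ih, smul_smul, pow_succ, mul_comm]

/-- the structure of an intertwiner -/
theorem intertwiner {T a b : ℤ} (ha : a ≠ 0) {R : Matrix (Fin 3) (Fin 3) ℤ}
    (h : Bz T a * R = R * Bz T b) :
    ∃ r x y : ℤ, R *ᵥ ![1, -1, 0] = r • ![1, -1, 0] ∧ Pi * R = U T x y * Pi ∧
      a * (x + 2 * y) = r * b + (2 * T - 3) * R 0 2 ∧ y = R 2 1 ∧ x = R 2 2 := by
  have h00 := congrFun (congrFun h 0) 0
  have h01 := congrFun (congrFun h 0) 1
  have h02 := congrFun (congrFun h 0) 2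
  have h10 := congrFun (congrFun h 1) 0
  have h11 := congrFun (congrFun h 1) 1
  have h12 := congrFun (congrFun h 1) 2
  have h20 := congrFun (congrFun h 2) 0
  have h21 := congrFun (congrFun h 2) 1
  have h22 := congrFun (congrFun h 2) 2
  simp [Matrix.mul_apply, Fin.sum_univ_three, Bz] at h00 h01 h02 h10 h11 h12 h20 h21 h22
  have d1 : R 0 0 - R 0 1 + (R 1 0 - R 1 1) = 0 := by
    have : a * (R 0 0 - R 0 1 + (R 1 0 - R 1 1)) = 0 := by linear_combination h00 - h01
    exact (mul_eq_zero.mp this).resolve_left ha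
  have d2 : R 2 0 = R 2 1 := by
    have : 2 * (R 2 0 - R 2 1) = 0 := by linear_combination h21 - h20 + d1
    omega
  refine ⟨R 0 0 - R 0 1, R 2 2, R 2 1, ?_, ?_, ?_, rfl, rfl⟩
  · ext i; fin_cases i <;> simp [Matrix.mulVec, dotProduct, Fin.sum_univ_three]
    · ring
    · linear_combination d1
    · linear_combination d2
  · ext i j; fin_cases i <;> fin_cases j <;>
      simp [Pi, U, Matrix.mul_apply, Fin.sum_univ_three, Fin.sum_univ_two]
    · linear_combination h20 + (b + 2) * d2
    · linear_combination h21 + b * d2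
    · linear_combination h22
    · linear_combination d2
  · linear_combination h01 - a * h21 - (T - 2) * (h02 - a * h22) - a * b * d2

theorem C_U (T x y : ℤ) : C T * U T x y = U T y (x + T * y) := by
  ext i j; fin_cases i <;> fin_cases j <;>
    simp [U, C, Matrix.mul_apply, Fin.sum_univ_two] <;> ring

theorem det_U (T x y : ℤ) : (U T x y).det = x ^ 2 + T * x * y - y ^ 2 := by
  simp [U, Matrix.det_fin_two]; ring

theorem det_C (T : ℤ) : (C T).det = -1 := by simp [C, Matrix.det_fin_two]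

/-- the invariants of a shift equivalence (lag `l`, possibly `0`) -/
theorem invariants {T a b : ℤ} (ha : a ≠ 0) (hb : b ≠ 0) {R S : Matrix (Fin 3) (Fin 3) ℤ} {l : ℕ}
    (h : IsSE ℤ (Bz T a) (Bz T b) l R S) :
    ∃ r s x y x' y' : ℤ, r * s = 2 ^ l ∧ U T x y * U T x' y' = C T ^ l ∧
      a * (x + 2 * y) = r * b + (2 * T - 3) * R 0 2 ∧
      y = R 2 1 ∧ x = R 2 2 ∧ y' = S 2 1 ∧ x' = S 2 2 := by
  obtain ⟨h1, h2, h3, h4⟩ := h
  obtain ⟨r, x, y, e1, e2, e3, e4, e5⟩ := intertwiner ha h3
  obtain ⟨s, x', y', f1, f2, _, f4, f5⟩ := intertwiner hb h4.symm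
  refine ⟨r, s, x, y, x', y', ?_, ?_, e3, e4, e5, f4, f5⟩
  · have g1 := pow_v T a l
    rw [h1, ← Matrix.mulVec_mulVec, f1, Matrix.mulVec_smul, e1, smul_smul] at g1
    have g2 := congrFun g1 0
    simp at g2
    linarith
  · have g1 : Pi * (R * S) = C T ^ l * Pi := by rw [← h1]; exact Pi_pow T a l
    have g2 : U T x y * U T x' y' * Pi = C T ^ l * Pi := by
      rw [← g1, ← Matrix.mul_assoc Pi, e2, Matrix.mul_assoc, ← f2, Matrix.mul_assoc]
    have g3 := congrArg (· * Sg) g2
    simp only [Matrix.mul_assoc, Pi_Sg, Matrix.mul_one] at g3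
    exact g3

theorem sgn_flip {m : ℤ} {u : ℤ} {i j : ℕ} (h : (2 ^ j * (-u) ≡ 2 ^ i [ZMOD m]) ∨
    (2 ^ j * (-u) ≡ -2 ^ i [ZMOD m])) :
    (2 ^ j * u ≡ 2 ^ i [ZMOD m]) ∨ (2 ^ j * u ≡ -2 ^ i [ZMOD m]) := by
  rcases h with h | h
  · right
    have := h.neg
    rwa [show -(2 ^ j * -u) = 2 ^ j * u by ring] at this
  · left
    have := h.neg
    rwa [show -(2 ^ j * -u) = 2 ^ j * u by ring, neg_neg] at this

/-- units of `ℤ[C]` act on the quotient by powers of `2`, up to sign -/
theorem unit_mod {T : ℤ} (hT : 1 ≤ T) (N : ℕ) : ∀ x y : ℤ, x.natAbs + y.natAbs ≤ N →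
    (x ^ 2 + T * x * y - y ^ 2 = 1 ∨ x ^ 2 + T * x * y - y ^ 2 = -1) →
    ∃ i j : ℕ, (2 ^ j * (x + 2 * y) ≡ 2 ^ i [ZMOD 2 * T - 3]) ∨
      (2 ^ j * (x + 2 * y) ≡ -2 ^ i [ZMOD 2 * T - 3]) := by
  induction N with
  | zero =>
    intro x y hN h
    have hx : x = 0 := by omega
    have hy : y = 0 := by omega
    subst hx; subst hy
    norm_num at h
  | succ N ih =>
    have step : ∀ x y : ℤ, 0 < x → x.natAbs + y.natAbs ≤ N + 1 →
        (x ^ 2 + T * x * y - y ^ 2 = 1 ∨ x ^ 2 + T * x * y - y ^ 2 = -1) →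
        ∃ i j : ℕ, (2 ^ j * (x + 2 * y) ≡ 2 ^ i [ZMOD 2 * T - 3]) ∨
          (2 ^ j * (x + 2 * y) ≡ -2 ^ i [ZMOD 2 * T - 3]) := by
      intro x y hx hN h
      rcases lt_trichotomy y 0 with hy | hy | hy
      · -- `y < 0 < x`
        have h1 : 0 ≤ x * (x + T * y) := by
          have : x * (x + T * y) = (x ^ 2 + T * x * y - y ^ 2) + y ^ 2 := by ring
          rw [this]
          have hy2 : 1 ≤ y ^ 2 := by nlinarith
          rcases h with h | h <;> rw [h] <;> linarith
        have h2 : 0 ≤ x + T * y := nonneg_of_mul_nonneg_right h1 hx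
        have h3 : T * y ≤ y := by nlinarith
        obtain ⟨i, j, hij⟩ := ih y (x + T * y) (by omega) (by
          have e : y ^ 2 + T * y * (x + T * y) - (x + T * y) ^ 2 =
            -(x ^ 2 + T * x * y - y ^ 2) := by ring
          rw [e]
          rcases h with h | h <;> rw [h] <;> norm_num)
        refine ⟨i, j + 1, ?_⟩
        have e : 2 ^ (j + 1) * (x + 2 * y) ≡ 2 ^ j * (y + 2 * (x + T * y)) [ZMOD 2 * T - 3] := by
          rw [Int.modEq_iff_dvd]
          exact ⟨2 ^ j * y, by ring⟩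
        rcases hij with g | g
        · left; exact e.trans g
        · right; exact e.trans g
      · subst hy
        have hx1 : x = 1 := by
          rcases h with h | h <;> nlinarith
        subst hx1
        exact ⟨0, 0, Or.inl (by norm_num)⟩
      · -- `0 < x, y`
        have h1 : 0 ≤ (y - T * x) * y := by
          have : (y - T * x) * y = x ^ 2 - (x ^ 2 + T * x * y - y ^ 2) := by ring
          rw [this]
          have hx2 : 1 ≤ x ^ 2 := by nlinarith
          rcases h with h | h <;> rw [h] <;> linarith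
        have h2 : 0 ≤ y - T * x := nonneg_of_mul_nonneg_left h1 hy
        have h3 : x ≤ T * x := by nlinarith
        obtain ⟨i, j, hij⟩ := ih (y - T * x) x (by omega) (by
          have e : (y - T * x) ^ 2 + T * (y - T * x) * x - x ^ 2 =
            -(x ^ 2 + T * x * y - y ^ 2) := by ring
          rw [e]
          rcases h with h | h <;> rw [h] <;> norm_num)
        refine ⟨i + 1, j, ?_⟩
        have e : 2 ^ j * (x + 2 * y) ≡ 2 * (2 ^ j * (y - T * x + 2 * x)) [ZMOD 2 * T - 3] := by
          rw [Int.modEq_iff_dvd]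
          exact ⟨-(2 ^ j * x), by ring⟩
        rcases hij with g | g
        · left
          have := e.trans (g.mul_left 2)
          rwa [show (2 : ℤ) * 2 ^ i = 2 ^ (i + 1) by ring] at this
        · right
          have := e.trans (g.mul_left 2)
          rwa [show (2 : ℤ) * -2 ^ i = -2 ^ (i + 1) by ring] at this
    intro x y hN h
    rcases lt_trichotomy x 0 with hx | hx | hx
    · obtain ⟨i, j, hij⟩ := step (-x) (-y) (by omega) (by omega) (by
        rcases h with h | h
        · left; linear_combination h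
        · right; linear_combination h)
      refine ⟨i, j, sgn_flip ?_⟩
      rwa [show -x + 2 * -y = -(x + 2 * y) by ring] at hij
    · subst hx
      have hy : y = 1 ∨ y = -1 := by
        have : y ^ 2 = 1 := by
          rcases h with h | h
          · nlinarith [sq_nonneg y]
          · linarith
        have h0 : (y - 1) * (y + 1) = 0 := by linear_combination this
        rcases mul_eq_zero.mp h0 with h0 | h0
        · left; linarith
        · right; linarith
      rcases hy with rfl | rfl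
      · exact ⟨1, 0, Or.inl (by norm_num)⟩
      · exact ⟨1, 0, Or.inr (by norm_num)⟩
    · exact step x y hx hN h

/-- nonnegative units are powers of `C` -/
theorem unit_nonneg {T : ℤ} (hT : 1 ≤ T) (N : ℕ) : ∀ x y : ℤ, 0 ≤ x → 0 ≤ y →
    x.natAbs + y.natAbs ≤ N →
    (x ^ 2 + T * x * y - y ^ 2 = 1 ∨ x ^ 2 + T * x * y - y ^ 2 = -1) →
    ∃ i : ℕ, U T x y = C T ^ i ∧ (x + 2 * y ≡ 2 ^ i [ZMOD 2 * T - 3]) := by
  induction N with
  | zero =>
    intro x y _ _ hN h
    have hx : x = 0 := by omega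
    have hy : y = 0 := by omega
    subst hx; subst hy
    norm_num at h
  | succ N ih =>
    intro x y hx hy hN h
    rcases hx.lt_or_eq with hx | hx
    · rcases hy.lt_or_eq with hy | hy
      · have h1 : 0 ≤ (y - T * x) * y := by
          have : (y - T * x) * y = x ^ 2 - (x ^ 2 + T * x * y - y ^ 2) := by ring
          rw [this]
          have hx2 : 1 ≤ x ^ 2 := by nlinarith
          rcases h with h | h <;> rw [h] <;> linarith
        have h2 : 0 ≤ y - T * x := nonneg_of_mul_nonneg_left h1 hy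
        have h3 : x ≤ T * x := by nlinarith
        obtain ⟨i, hi, hij⟩ := ih (y - T * x) x h2 hx.le (by omega) (by
          have e : (y - T * x) ^ 2 + T * (y - T * x) * x - x ^ 2 =
            -(x ^ 2 + T * x * y - y ^ 2) := by ring
          rw [e]
          rcases h with h | h <;> rw [h] <;> norm_num)
        refine ⟨i + 1, ?_, ?_⟩
        · rw [pow_succ', ← hi, C_U]
          congr 1
          ring
        · have e : x + 2 * y ≡ 2 * (y - T * x + 2 * x) [ZMOD 2 * T - 3] := by
            rw [Int.modEq_iff_dvd]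
            exact ⟨-x, by ring⟩
          have := e.trans (hij.mul_left 2)
          rwa [show (2 : ℤ) * 2 ^ i = 2 ^ (i + 1) by ring] at this
      · subst hy
        have hx1 : x = 1 := by
          rcases h with h | h <;> nlinarith
        subst hx1
        refine ⟨0, ?_, by norm_num⟩
        ext i j; fin_cases i <;> fin_cases j <;> simp [U]
    · subst hx
      have hy1 : y = 1 := by
        rcases h with h | h <;> nlinarith
      subst hy1
      refine ⟨1, ?_, by norm_num⟩
      ext i j; fin_cases i <;> fin_cases j <;> simp [U, C]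

/-- the entries of the powers of `C` -/
theorem C_pow_mono {T : ℤ} (hT : 2 ≤ T) (k : ℕ) :
    1 ≤ (C T ^ k) 0 0 ∧ 0 ≤ (C T ^ k) 0 1 ∧ (C T ^ k) 0 0 < (C T ^ (k + 1)) 0 0 := by
  have e : ∀ k, (C T ^ (k + 1)) 0 0 = (C T ^ k) 0 0 * T + (C T ^ k) 0 1 ∧
      (C T ^ (k + 1)) 0 1 = (C T ^ k) 0 0 := by
    intro k
    rw [pow_succ]
    constructor <;> simp [C, Matrix.mul_apply, Fin.sum_univ_two]
  have h : ∀ k, 1 ≤ (C T ^ k) 0 0 ∧ 0 ≤ (C T ^ k) 0 1 := by
    intro k
    induction k with
    | zero => simp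
    | succ k ih =>
      rw [(e k).1, (e k).2]
      constructor <;> nlinarith [ih.1, ih.2]
  refine ⟨(h k).1, (h k).2, ?_⟩
  rw [(e k).1]
  nlinarith [(h k).1, (h k).2]

theorem C_pow_inj {T : ℤ} (hT : 2 ≤ T) {k l : ℕ} (h : C T ^ k = C T ^ l) : k = l := by
  have hm : StrictMono (fun k : ℕ => (C T ^ k) 0 0) :=
    strictMono_nat_of_lt_succ (fun k => (C_pow_mono hT k).2.2)
  exact hm.injective (by simp only [h])

end Pool.Agent.R775.SSE
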