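import Pool.Agent.R775.SSE.Rel

/-!
# The lag of strong shift equivalences in the family `B T a`
-/

set_option autoImplicit false

namespace Pool.Agent.R775.SSE

open Matrix

theorem key3 {n s : ℕ} (h : (3 ^ (n + 1) : ℤ) ∣ 4 ^ s - 1) : 3 ^ n ∣ s := by
  have h1 := Int.emultiplicity_pow_sub_pow (p := 3) Nat.prime_three (by decide) (x := 4) (y := 1)
    (by norm_num) (by norm_num) s
  rw [one_pow] at h1
  have h2 : ((n + 1 : ℕ) : ℕ∞) ≤ emultiplicity ((3 : ℕ) : ℤ) (4 ^ s - 1) :=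
    pow_dvd_iff_le_emultiplicity.mp (by exact_mod_cast h)
  rw [h1] at h2
  have h3 : emultiplicity ((3 : ℕ) : ℤ) (4 - 1) = 1 := by
    have : (4 - 1 : ℤ) = ((3 : ℕ) : ℤ) := by norm_num
    rw [this]
    have h4 : emultiplicity ((3 : ℕ) : ℤ) (((3 : ℕ) : ℤ)) = emultiplicity 3 3 :=
      Int.natCast_emultiplicity 3 3
    rw [h4]
    have : FiniteMultiplicity 3 3 := Nat.finiteMultiplicity_iff.mpr ⟨by norm_num, by norm_num⟩
    exact this.emultiplicity_self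
  rw [h3] at h2
  apply pow_dvd_iff_le_emultiplicity.mpr
  have h5 : ((1 : ℕ∞) + n) ≤ 1 + emultiplicity 3 s := by
    push_cast at h2
    rwa [add_comm] at h2
  exact (ENat.add_le_add_iff_left (by simp)).mp h5

theorem key4 {n K : ℕ} (hK : 3 ^ n = 2 * K + 1) {s : ℕ} (hs : 0 < s) (hs' : s < 2 * K + 1)
    (h : (4 : ℤ) ^ s ≡ 1 [ZMOD 3 ^ (n + 1)]) : False := by
  have h1 := key3 (n := n) (s := s) (by
    rw [Int.modEq_iff_dvd] at h
    exact (dvd_neg.mpr h).trans (by rw [neg_sub]))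
  rw [hK] at h1
  exact absurd (Nat.le_of_dvd hs h1) (by omega)

theorem sq_of_pm {x y m : ℤ} (h : x ≡ y [ZMOD m] ∨ x ≡ -y [ZMOD m]) : x ^ 2 ≡ y ^ 2 [ZMOD m] := by
  rcases h with h | h
  · exact h.pow 2
  · have := h.pow 2
    rwa [neg_sq] at this

theorem cancel_four {m : ℤ} (hm : IsCoprime m 4) {i j : ℕ} (hij : i ≤ j)
    (h : (4 : ℤ) ^ i ≡ 4 ^ j [ZMOD m]) : (4 : ℤ) ^ (j - i) ≡ 1 [ZMOD m] := by
  rw [Int.modEq_iff_dvd] at h ⊢
  have e : (4 : ℤ) ^ j - 4 ^ i = 4 ^ i * (4 ^ (j - i) - 1) := by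
    rw [mul_sub, ← pow_add, Nat.add_sub_cancel' hij, mul_one]
  rw [e] at h
  have := (hm.pow_right (n := i)).dvd_of_dvd_mul_left h
  rw [← neg_sub]
  exact dvd_neg.mpr this

/-- the pair with large lag -/
theorem large_lag {n K : ℕ} (hn : 1 ≤ n) (hK : 3 ^ n = 2 * K + 1) :
    ∃ b : ℕ, 1 ≤ b ∧ b ≤ 3 * K + 1 ∧
      (∃ k ≤ 7 * K, Chain k ⟨3, B (3 * K + 3) 1⟩ ⟨3, B (3 * K + 3) b⟩) ∧
      (∀ (l : ℕ) (R S : Matrix (Fin 3) (Fin 3) ℕ),
        IsSE ℕ (B (3 * K + 3) 1) (B (3 * K + 3) b) l R S → K ≤ l) := by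
  have hK1 : 1 ≤ K := by
    by_contra hc
    have : K = 0 := by omega
    subst this
    have := Nat.one_lt_pow (n := n) (by omega) (show 1 < 3 by norm_num)
    omega
  obtain ⟨T, hT⟩ : ∃ T, T = 3 * K + 3 := ⟨_, rfl⟩
  have hT5 : 5 ≤ T := by omega
  have hm : (2 * (T : ℤ) - 3) = 3 ^ (n + 1) := by
    rw [pow_succ]
    have : (3 : ℤ) ^ n = 2 * K + 1 := by exact_mod_cast hK
    rw [this, hT]
    push_cast
    ring
  have hcop : IsCoprime (2 * (T : ℤ) - 3) 4 := by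
    rw [hm]
    exact IsCoprime.pow_left ⟨-1, 1, by norm_num⟩
  have h1 : (1 : ℕ) ≤ T - 2 := by omega
  refine ⟨(phi T)^[K] 1, (iter_mem hT5 le_rfl h1 K).1, ?_, ?_, ?_⟩
  · have := (iter_mem hT5 le_rfl h1 K).2
    omega
  · rw [← hT]
    have path : ∀ j ≤ K, ∃ k ≤ 7 * j, Chain k ⟨3, B T 1⟩ ⟨3, B T ((phi T)^[j] 1)⟩ := by
      intro j
      induction j with
      | zero => intro _; exact ⟨0, by omega, rfl⟩
      | succ j ih =>
        intro hj
        obtain ⟨k, hk, hc⟩ := ih (by omega)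
        obtain ⟨m1, m2⟩ := iter_mem hT5 le_rfl h1 j
        rw [Function.iterate_succ_apply']
        have hne : phi T ((phi T)^[j] 1) ≠ T - 2 := by
          intro he
          have hmod := iter_mod hT5 le_rfl h1 (j + 1)
          rw [Function.iterate_succ_apply', he] at hmod
          have e1 : ((T - 2 : ℕ) : ℤ) = (T : ℤ) - 2 := by
            have : 2 ≤ T := by omega
            push_cast [this]
            ring
          rw [e1] at hmod
          have e2 : ((T : ℤ) - 2 ) ^ 2 ≡ (2 ^ (j + 1) * ((1 : ℕ) : ℤ)) ^ 2 [ZMOD 2 * T - 3] :=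
            sq_of_pm hmod
          have e3 := e2.mul_left 4
          have e4 : 4 * ((T : ℤ) - 2) ^ 2 ≡ 1 [ZMOD 2 * T - 3] := by
            rw [Int.modEq_iff_dvd]
            exact ⟨-(2 * T - 5), by ring⟩
          have e5 := (e4.symm.trans e3).symm
          have e6 : (4 : ℤ) * (2 ^ (j + 1) * ((1 : ℕ) : ℤ)) ^ 2 = 4 ^ (j + 2) := by
            rw [Nat.cast_one, mul_one, ← pow_mul, mul_comm (j + 1) 2, pow_mul]
            norm_num
            ring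
          rw [e6, hm] at e5
          exact key4 hK (by omega) (by omega) e5
        obtain ⟨k', hk', hc'⟩ := edge hT5 m1 m2 hne
        exact ⟨k + k', by omega, hc.trans hc'⟩
    exact path K le_rfl
  · intro l R S h
    rw [← hT] at h
    obtain ⟨m1, m2⟩ := iter_mem hT5 le_rfl h1 K
    obtain ⟨i, j, hi, hj, hij⟩ := mod_of_seN hT5 le_rfl h1 m1 m2 h
    by_contra hc
    have hb := sq_of_pm (iter_mod hT5 le_rfl h1 K)
    have e1 : (2 ^ i * ((1 : ℕ) : ℤ)) ^ 2 ≡ (2 ^ j * (((phi T)^[K] 1 : ℕ) : ℤ)) ^ 2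
        [ZMOD 2 * T - 3] := sq_of_pm hij
    have e2 : (2 ^ i * ((1 : ℕ) : ℤ)) ^ 2 ≡ ((2 : ℤ) ^ j) ^ 2 * (2 ^ K * ((1 : ℕ) : ℤ)) ^ 2
        [ZMOD 2 * T - 3] := by
      have := hb.mul_left ((2 ^ j) ^ 2)
      rw [← mul_pow] at this
      exact e1.trans this
    have e3 : (2 ^ i * ((1 : ℕ) : ℤ)) ^ 2 = 4 ^ i := by
      rw [Nat.cast_one, mul_one, ← pow_mul, mul_comm i 2, pow_mul]; norm_num
    have e4 : ((2 : ℤ) ^ j) ^ 2 * (2 ^ K * ((1 : ℕ) : ℤ)) ^ 2 = 4 ^ (j + K) := by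
      rw [Nat.cast_one, mul_one, ← mul_pow, ← pow_add, ← pow_mul, mul_comm (j + K) 2, pow_mul]
      rfl
    rw [e3, e4] at e2
    have e5 := cancel_four hcop (by omega) e2
    rw [hm] at e5
    exact key4 hK (by omega) (by omega) e5

end Pool.Agent.R775.SSE
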