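import Pool.Agent.R775.SSE.Chains

/-!
# The doubling map on the family `B T a`
-/

set_option autoImplicit false

namespace Pool.Agent.R775.SSE

open Matrix

/-- the representative of `± 2 a` modulo `2 T - 3` in `1, …, T - 2` -/
def phi (T a : ℕ) : ℕ := if 2 * a ≤ T - 2 then 2 * a else 2 * T - 3 - 2 * a

theorem phi_mem {T a : ℕ} (hT : 5 ≤ T) (h1 : 1 ≤ a) (h2 : a ≤ T - 2) :
    1 ≤ phi T a ∧ phi T a ≤ T - 2 := by
  unfold phi
  split_ifs <;> omega

theorem phi_inj {T a b : ℕ} (hT : 5 ≤ T) (h1 : 1 ≤ a) (h2 : a ≤ T - 2) (h3 : 1 ≤ b)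
    (h4 : b ≤ T - 2) (h : phi T a = phi T b) : a = b := by
  unfold phi at h
  split_ifs at h <;> omega

theorem phi_mod {T a : ℕ} (hT : 5 ≤ T) (h2 : a ≤ T - 2) :
    ((phi T a : ℤ) ≡ 2 * a [ZMOD 2 * T - 3]) ∨ ((phi T a : ℤ) ≡ -(2 * a) [ZMOD 2 * T - 3]) := by
  unfold phi
  split_ifs with h
  · left
    push_cast
    exact Int.ModEq.refl _
  · right
    rw [Int.modEq_iff_dvd]
    refine ⟨-1, ?_⟩
    have : ((2 * T - 3 - 2 * a : ℕ) : ℤ) = 2 * T - 3 - 2 * a := by omega
    rw [this]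
    ring

theorem B_eq {T a x y : ℕ} (h1 : T - 2 - a = x) (h2 : T - a = y) :
    B T a = !![a + 2, a, 0; x, y, 1; 1, 1, 0] := by
  unfold B
  rw [h1, h2]

/-- the edges of the doubling map, all but one -/
theorem edge {T a : ℕ} (hT : 5 ≤ T) (h1 : 1 ≤ a) (h2 : a ≤ T - 2) (h3 : phi T a ≠ T - 2) :
    ∃ k ≤ 7, Chain k ⟨3, B T a⟩ ⟨3, B T (phi T a)⟩ := by
  unfold phi at h3 ⊢
  by_cases c1 : 2 * a + 4 ≤ T
  · obtain ⟨k, rfl⟩ := Nat.exists_eq_add_of_le c1
    refine ⟨2, by norm_num, ?_⟩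
    have e := chain_one a k
    rw [if_pos (by omega), B_eq (x := a + 2 + k) (y := a + 4 + k) (by omega) (by omega),
      B_eq (x := k + 2) (y := k + 4) (by omega) (by omega)]
    exact e
  by_cases c2 : T + 1 ≤ 2 * a
  · obtain ⟨b, hb⟩ : ∃ b, T = a + b + 2 := ⟨T - 2 - a, by omega⟩
    obtain ⟨k, hk⟩ : ∃ k, a = b + 3 + k := ⟨a - b - 3, by omega⟩
    refine ⟨4, by norm_num, ?_⟩
    have e := chain_two b k
    subst hk
    subst hb
    rw [if_neg (by omega), show 2 * (b + 3 + k + b + 2) - 3 - 2 * (b + 3 + k) = 2 * b + 1 by omega,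
      B_eq (x := b) (y := b + 2) (by omega) (by omega),
      B_eq (x := k + 2) (y := k + 4) (by omega) (by omega),
      show b + 3 + k + 2 = b + 5 + k by omega]
    exact e
  by_cases c3 : 2 * a = T
  · obtain ⟨u, hu⟩ : ∃ u, a = u + 3 := ⟨a - 3, by omega⟩
    subst hu
    subst c3
    refine ⟨7, le_rfl, ?_⟩
    have e := chain_three u
    rw [if_neg (by omega), show 2 * (2 * (u + 3)) - 3 - 2 * (u + 3) = 2 * u + 3 by omega,
      B_eq (x := u + 1) (y := u + 3) (by omega) (by omega),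
      B_eq (x := 1) (y := 3) (by omega) (by omega)]
    exact e
  by_cases c4 : 2 * a + 3 = T
  · obtain ⟨u, hu⟩ : ∃ u, a = u + 1 := ⟨a - 1, by omega⟩
    subst hu
    subst c4
    refine ⟨5, by norm_num, ?_⟩
    have e := chain_four u
    rw [if_pos (by omega), show 2 * (u + 1) = 2 * u + 2 by ring,
      B_eq (x := u + 2) (y := u + 4) (by omega) (by omega),
      B_eq (x := 1) (y := 3) (by omega) (by omega)]
    exact e
  exfalso
  split_ifs at h3 <;> omega

theorem SSE.refl {n : ℕ} (A : Matrix (Fin n) (Fin n) ℕ) : SSE A A := ⟨0, rfl⟩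

theorem SSE.symm {n m : ℕ} {A : Matrix (Fin n) (Fin n) ℕ} {C : Matrix (Fin m) (Fin m) ℕ}
    (h : SSE A C) : SSE C A := by
  obtain ⟨k, h⟩ := h
  exact ⟨k, h.symm⟩

theorem SSE.trans {n m l : ℕ} {A : Matrix (Fin n) (Fin n) ℕ} {C : Matrix (Fin m) (Fin m) ℕ}
    {D : Matrix (Fin l) (Fin l) ℕ} (h : SSE A C) (h' : SSE C D) : SSE A D := by
  obtain ⟨k, h⟩ := h
  obtain ⟨k', h'⟩ := h'
  exact ⟨k + k', h.trans h'⟩

theorem iter_mem {T a : ℕ} (hT : 5 ≤ T) (h1 : 1 ≤ a) (h2 : a ≤ T - 2) (k : ℕ) :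
    1 ≤ (phi T)^[k] a ∧ (phi T)^[k] a ≤ T - 2 := by
  induction k with
  | zero => exact ⟨h1, h2⟩
  | succ k ih =>
    rw [Function.iterate_succ_apply']
    exact phi_mem hT ih.1 ih.2

/-- all the edges of the doubling map -/
theorem edge_all {T a : ℕ} (hT : 5 ≤ T) (h1 : 1 ≤ a) (h2 : a ≤ T - 2) :
    SSE (B T a) (B T (phi T a)) := by
  by_cases h3 : phi T a = T - 2
  · rw [h3]
    have key : ∀ j : ℕ, SSE (B T (T - 2)) (B T ((phi T)^[j] (T - 2))) := by
      intro j
      induction j with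
      | zero => exact SSE.refl _
      | succ j ih =>
        rw [Function.iterate_succ_apply']
        obtain ⟨m1, m2⟩ := iter_mem (a := T - 2) hT (by omega) le_rfl j
        by_cases h4 : phi T ((phi T)^[j] (T - 2)) = T - 2
        · rw [h4]; exact SSE.refl _
        · obtain ⟨k, _, h⟩ := edge hT m1 m2 h4
          exact ih.trans ⟨k, h⟩
    have hper : ∃ N, 1 ≤ N ∧ (phi T)^[N] (T - 2) = T - 2 := by
      let S := {x : ℕ // 1 ≤ x ∧ x ≤ T - 2}
      let f : S → S := fun x => ⟨phi T x.1, phi_mem hT x.2.1 x.2.2⟩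
      have hf : Function.Injective f := by
        intro x y hxy
        apply Subtype.ext
        exact phi_inj hT x.2.1 x.2.2 y.2.1 y.2.2 (congrArg Subtype.val hxy)
      have : Finite S := by
        apply Set.Finite.to_subtype
        exact (Set.finite_Icc 1 (T - 2)).subset (fun x hx => hx)
      have hp := hf.mem_periodicPts (x := (⟨T - 2, by omega, le_rfl⟩ : S))
      obtain ⟨N, hN, hN'⟩ := hp
      refine ⟨N, hN, ?_⟩
      have h5 : ∀ (n : ℕ) (x : S), (f^[n] x).1 = (phi T)^[n] x.1 := by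
        intro n
        induction n with
        | zero => intro x; rfl
        | succ n ih => intro x; rw [Function.iterate_succ_apply, Function.iterate_succ_apply, ih]
      have h6 := congrArg Subtype.val hN'
      rw [h5] at h6
      exact h6
    obtain ⟨N, hN, hN'⟩ := hper
    obtain ⟨M, rfl⟩ : ∃ M, N = M + 1 := ⟨N - 1, by omega⟩
    rw [Function.iterate_succ_apply'] at hN'
    obtain ⟨m1, m2⟩ := iter_mem (a := T - 2) hT (by omega) le_rfl M
    have h7 := phi_inj hT m1 m2 h1 h2 (hN'.trans h3.symm)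
    have h8 := key M
    rw [h7] at h8
    exact h8.symm
  · obtain ⟨k, _, h⟩ := edge hT h1 h2 h3
    exact ⟨k, h⟩

theorem iter_sse {T a : ℕ} (hT : 5 ≤ T) (h1 : 1 ≤ a) (h2 : a ≤ T - 2) (k : ℕ) :
    SSE (B T a) (B T ((phi T)^[k] a)) := by
  induction k with
  | zero => exact SSE.refl _
  | succ k ih =>
    rw [Function.iterate_succ_apply']
    obtain ⟨m1, m2⟩ := iter_mem hT h1 h2 k
    exact ih.trans (edge_all hT m1 m2)

theorem iter_mod {T a : ℕ} (hT : 5 ≤ T) (h1 : 1 ≤ a) (h2 : a ≤ T - 2) (k : ℕ) :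
    (((phi T)^[k] a : ℕ) : ℤ) ≡ 2 ^ k * a [ZMOD 2 * T - 3] ∨
      (((phi T)^[k] a : ℕ) : ℤ) ≡ -(2 ^ k * a) [ZMOD 2 * T - 3] := by
  induction k with
  | zero => left; simp
  | succ k ih =>
    rw [Function.iterate_succ_apply']
    obtain ⟨m1, m2⟩ := iter_mem hT h1 h2 k
    have h3 := phi_mod hT m2
    have e : ∀ x : ℤ, x ≡ 2 ^ k * a [ZMOD 2 * T - 3] → 2 * x ≡ 2 ^ (k + 1) * a [ZMOD 2 * T - 3] := by
      intro x hx
      have := hx.mul_left 2
      rwa [show (2 : ℤ) * (2 ^ k * a) = 2 ^ (k + 1) * a by ring] at this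
    have e' : ∀ x : ℤ, x ≡ -(2 ^ k * a) [ZMOD 2 * T - 3] →
        2 * x ≡ -(2 ^ (k + 1) * a) [ZMOD 2 * T - 3] := by
      intro x hx
      have := hx.mul_left 2
      rwa [show (2 : ℤ) * -(2 ^ k * a) = -(2 ^ (k + 1) * a) by ring] at this
    rcases ih with ih | ih <;> rcases h3 with h3 | h3
    · left; exact h3.trans (e _ ih)
    · right; exact h3.trans (e _ ih).neg
    · right; exact h3.trans (e' _ ih)
    · left
      have := h3.trans (e' _ ih).neg
      rwa [neg_neg] at this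

theorem rep_unique {T x y : ℕ} (hT : 5 ≤ T) (hx : 1 ≤ x) (hx' : x ≤ T - 2) (hy : 1 ≤ y)
    (hy' : y ≤ T - 2) (h : (x : ℤ) ≡ y [ZMOD 2 * T - 3] ∨ (x : ℤ) ≡ -y [ZMOD 2 * T - 3]) :
    x = y := by
  rcases h with h | h
  · rw [Int.modEq_iff_dvd] at h
    have h0 : (y : ℤ) - x = 0 := by
      apply Int.eq_zero_of_abs_lt_dvd h
      rw [abs_lt]
      constructor <;> omega
    omega
  · rw [Int.modEq_iff_dvd] at h
    have h0 : -(y : ℤ) - x = 0 := by
      apply Int.eq_zero_of_abs_lt_dvd h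
      rw [abs_lt]
      constructor <;> omega
    omega

/-- congruent up to sign and powers of two implies strong shift equivalent -/
theorem sse_of_mod {T a b : ℕ} (hT : 5 ≤ T) (h1 : 1 ≤ a) (h2 : a ≤ T - 2) (h3 : 1 ≤ b)
    (h4 : b ≤ T - 2) {k l : ℕ} (h : (2 ^ k * a : ℤ) ≡ 2 ^ l * b [ZMOD 2 * T - 3] ∨
      (2 ^ k * a : ℤ) ≡ -(2 ^ l * b) [ZMOD 2 * T - 3]) : SSE (B T a) (B T b) := by
  have e : (phi T)^[k] a = (phi T)^[l] b := by
    obtain ⟨m1, m2⟩ := iter_mem hT h1 h2 k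
    obtain ⟨m3, m4⟩ := iter_mem hT h3 h4 l
    apply rep_unique hT m1 m2 m3 m4
    rcases iter_mod hT h1 h2 k with p | p <;> rcases iter_mod hT h3 h4 l with q | q <;>
      rcases h with h | h
    · left; exact p.trans (h.trans q.symm)
    · right; exact p.trans (h.trans q.symm.neg)
    · right
      have := p.trans (h.trans (by simpa using q.neg.symm))
      exact this
    · left; exact p.trans (h.trans q.symm)
    · right
      have := p.trans (h.neg.trans q.symm.neg)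
      exact this
    · left
      have := p.trans (h.neg.trans (by simpa using q.symm))
      exact this
    · left
      have := p.trans (h.neg.trans q.symm)
      exact this
    · right
      have := p.trans (h.neg.trans (by simpa using q.neg.symm))
      exact this
  have s1 := iter_sse hT h1 h2 k
  have s2 := iter_sse hT h3 h4 l
  rw [e] at s1
  exact s1.trans s2.symm

end Pool.Agent.R775.SSE
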