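import Pool.Agent.R775.SSE.Inv
import Pool.Agent.R775.SSE.Orbits

/-!
# Shift equivalence of the matrices `B T a`
-/

set_option autoImplicit false

namespace Pool.Agent.R775.SSE

open Matrix

theorem toZ_B {T a : ℕ} (h : a ≤ T - 2) (hT : 2 ≤ T) : toZ (B T a) = Bz T a := by
  ext i j
  fin_cases i <;> fin_cases j <;> simp [toZ, B, Bz] <;> omega

theorem toZ_pow {n : ℕ} (A : Matrix (Fin n) (Fin n) ℕ) (l : ℕ) : toZ (A ^ l) = toZ A ^ l := by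
  unfold toZ
  exact Matrix.map_pow (f := Nat.castRingHom ℤ) A l

theorem isSE_toZ {n m : ℕ} {A : Matrix (Fin n) (Fin n) ℕ} {D : Matrix (Fin m) (Fin m) ℕ} {l : ℕ}
    {R : Matrix (Fin n) (Fin m) ℕ} {S : Matrix (Fin m) (Fin n) ℕ} (h : IsSE ℕ A D l R S) :
    IsSE ℤ (toZ A) (toZ D) l (R.map (Nat.cast : ℕ → ℤ)) (S.map (Nat.cast : ℕ → ℤ)) := by
  have hm : ∀ {p q r : ℕ} (X : Matrix (Fin p) (Fin q) ℕ) (Y : Matrix (Fin q) (Fin r) ℕ),
      (X * Y).map (Nat.cast : ℕ → ℤ) = X.map (Nat.cast : ℕ → ℤ) * Y.map (Nat.cast : ℕ → ℤ) := by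
    intro p q r X Y
    exact Matrix.map_mul (f := Nat.castRingHom ℤ)
  obtain ⟨h1, h2, h3, h4⟩ := h
  refine ⟨?_, ?_, ?_, ?_⟩
  · rw [← toZ_pow, ← hm, h1]; rfl
  · rw [← toZ_pow, ← hm, h2]; rfl
  · unfold toZ; rw [← hm, ← hm, h3]
  · unfold toZ; rw [← hm, ← hm, h4]

theorem unit_det {T x y x' y' : ℤ} {l : ℕ} (h : U T x y * U T x' y' = C T ^ l) :
    x ^ 2 + T * x * y - y ^ 2 = 1 ∨ x ^ 2 + T * x * y - y ^ 2 = -1 := by
  have h1 := congrArg Matrix.det h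
  rw [Matrix.det_mul, Matrix.det_pow, det_U, det_U, det_C] at h1
  have h2 : IsUnit ((x ^ 2 + T * x * y - y ^ 2) * (x' ^ 2 + T * x' * y' - y' ^ 2)) := by
    rw [h1]
    exact IsUnit.pow _ (by norm_num)
  exact Int.isUnit_iff.mp (isUnit_of_mul_isUnit_left h2)

theorem pow_two_of_mul {r s : ℤ} {l : ℕ} (h : r * s = 2 ^ l) :
    ∃ j ≤ l, r = 2 ^ j ∨ r = -2 ^ j := by
  have h1 : r.natAbs ∣ 2 ^ l := by
    refine ⟨s.natAbs, ?_⟩
    rw [← Int.natAbs_mul, h, Int.natAbs_pow]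
    rfl
  obtain ⟨j, hj, hj'⟩ := (Nat.dvd_prime_pow Nat.prime_two).mp h1
  refine ⟨j, hj, ?_⟩
  rcases Int.natAbs_eq r with h2 | h2
  · left; rw [h2, hj']; push_cast; rfl
  · right; rw [h2, hj']; push_cast; rfl

/-- shift equivalence over `ℤ` implies congruence up to sign and powers of `2` -/
theorem mod_of_seZ {T a b : ℤ} (hT : 1 ≤ T) (ha : a ≠ 0) (hb : b ≠ 0)
    {R S : Matrix (Fin 3) (Fin 3) ℤ} {l : ℕ} (h : IsSE ℤ (Bz T a) (Bz T b) l R S) :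
    ∃ k m : ℕ, (2 ^ k * a ≡ 2 ^ m * b [ZMOD 2 * T - 3]) ∨
      (2 ^ k * a ≡ -(2 ^ m * b) [ZMOD 2 * T - 3]) := by
  obtain ⟨r, s, x, y, x', y', h1, h2, h3, -⟩ := invariants ha hb h
  obtain ⟨j, -, hr⟩ := pow_two_of_mul h1
  obtain ⟨i, p, hip⟩ := unit_mod hT _ x y le_rfl (unit_det h2)
  have e : a * (x + 2 * y) ≡ r * b [ZMOD 2 * T - 3] := by
    rw [h3, Int.modEq_iff_dvd]
    exact ⟨-R 0 2, by ring⟩
  refine ⟨i, p + j, ?_⟩
  have e1 : a * (2 ^ p * (x + 2 * y)) ≡ 2 ^ p * (r * b) [ZMOD 2 * T - 3] := by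
    have := e.mul_left (2 ^ p)
    rwa [show (2 : ℤ) ^ p * (a * (x + 2 * y)) = a * (2 ^ p * (x + 2 * y)) by ring] at this
  rcases hip with g | g <;> rcases hr with hr | hr
  · left
    have := (g.mul_left a).symm.trans e1
    rw [hr] at this
    rwa [show a * 2 ^ i = 2 ^ i * a by ring,
      show (2 : ℤ) ^ p * (2 ^ j * b) = 2 ^ (p + j) * b by ring] at this
  · right
    have := (g.mul_left a).symm.trans e1
    rw [hr] at this
    rwa [show a * 2 ^ i = 2 ^ i * a by ring,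
      show (2 : ℤ) ^ p * (-2 ^ j * b) = -(2 ^ (p + j) * b) by ring] at this
  · right
    have := ((g.mul_left a).symm.trans e1).neg
    rw [hr] at this
    rwa [show -(a * -2 ^ i) = 2 ^ i * a by ring,
      show -((2 : ℤ) ^ p * (2 ^ j * b)) = -(2 ^ (p + j) * b) by ring] at this
  · left
    have := ((g.mul_left a).symm.trans e1).neg
    rw [hr] at this
    rwa [show -(a * -2 ^ i) = 2 ^ i * a by ring,
      show -((2 : ℤ) ^ p * (-2 ^ j * b)) = 2 ^ (p + j) * b by ring] at this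

/-- shift equivalence over `ℕ` of lag `l`: the powers of `2` are bounded by the lag -/
theorem mod_of_seN {T a b : ℕ} (hT : 5 ≤ T) (ha : 1 ≤ a) (ha' : a ≤ T - 2) (hb : 1 ≤ b)
    (hb' : b ≤ T - 2) {R S : Matrix (Fin 3) (Fin 3) ℕ} {l : ℕ}
    (h : IsSE ℕ (B T a) (B T b) l R S) :
    ∃ i j : ℕ, i ≤ l ∧ j ≤ l ∧ ((2 ^ i * a ≡ 2 ^ j * b [ZMOD 2 * T - 3]) ∨
      (2 ^ i * a ≡ -(2 ^ j * b) [ZMOD 2 * T - 3])) := by
  have hz := isSE_toZ h
  rw [toZ_B ha' (by omega), toZ_B hb' (by omega)] at hz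
  obtain ⟨r, s, x, y, x', y', h1, h2, h3, h4, h5, h6, h7⟩ := invariants
    (by exact_mod_cast (by omega : a ≠ 0)) (by exact_mod_cast (by omega : b ≠ 0)) hz
  obtain ⟨j, hj, hr⟩ := pow_two_of_mul h1
  have hT1 : (1 : ℤ) ≤ T := by exact_mod_cast (by omega : 1 ≤ T)
  have hy : 0 ≤ y := by rw [h4]; simp
  have hx : 0 ≤ x := by rw [h5]; simp
  have hy' : 0 ≤ y' := by rw [h6]; simp
  have hx' : 0 ≤ x' := by rw [h7]; simp
  obtain ⟨i, hi, him⟩ := unit_nonneg hT1 _ x y hx hy le_rfl (unit_det h2)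
  have h2' : U T x' y' * U T x y = C T ^ l := by
    rw [← h2]
    ext i j
    fin_cases i <;> fin_cases j <;> simp [U, Matrix.mul_apply, Fin.sum_univ_two] <;> ring
  obtain ⟨i', hi', -⟩ := unit_nonneg hT1 _ x' y' hx' hy' le_rfl (unit_det h2')
  have hl : i + i' = l := by
    apply C_pow_inj (T := T) (by exact_mod_cast (by omega : 2 ≤ T))
    rw [pow_add, ← hi, ← hi', h2]
  refine ⟨i, j, by omega, hj, ?_⟩
  have e : (a : ℤ) * (x + 2 * y) ≡ r * b [ZMOD 2 * T - 3] := by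
    rw [h3, Int.modEq_iff_dvd]
    exact ⟨-(R.map (Nat.cast : ℕ → ℤ)) 0 2, by ring⟩
  have e1 := (him.mul_left (a : ℤ)).symm.trans e
  rw [mul_comm (a : ℤ) (2 ^ i)] at e1
  rcases hr with hr | hr
  · left
    rwa [hr] at e1
  · right
    rw [hr] at e1
    rwa [neg_mul] at e1

theorem pow_swap {n m : ℕ} (R : Matrix (Fin n) (Fin m) ℕ) (S : Matrix (Fin m) (Fin n) ℕ) (k : ℕ) :
    R * (S * R) ^ k * S = (R * S) ^ (k + 1) := by
  induction k with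
  | zero => simp
  | succ k ih =>
    rw [pow_succ (S * R), pow_succ (R * S) (k + 1), ← ih]
    simp only [Matrix.mul_assoc]

/-- a chain of `k` elementary equivalences gives a shift equivalence of lag `k` -/
theorem Chain.isSE {k : ℕ} {X Y : Σ n : ℕ, Matrix (Fin n) (Fin n) ℕ} (h : Chain k X Y) :
    ∃ (R : Matrix (Fin X.1) (Fin Y.1) ℕ) (S : Matrix (Fin Y.1) (Fin X.1) ℕ),
      IsSE ℕ X.2 Y.2 k R S := by
  induction k generalizing X with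
  | zero =>
    have e : X = Y := h
    subst e
    exact ⟨1, 1, by simp, by simp, by simp, by simp⟩
  | succ k ih =>
    obtain ⟨Z, ⟨R₁, S₁, e1, e2⟩, h2⟩ := h
    obtain ⟨R, S, f1, f2, f3, f4⟩ := ih h2
    refine ⟨R₁ * R, S * S₁, ?_, ?_, ?_, ?_⟩
    · calc X.2 ^ (k + 1) = (R₁ * S₁) ^ (k + 1) := by rw [e1]
        _ = R₁ * (S₁ * R₁) ^ k * S₁ := (pow_swap _ _ _).symm
        _ = R₁ * (R * S) * S₁ := by rw [← e2, f1]
        _ = R₁ * R * (S * S₁) := by simp only [Matrix.mul_assoc]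
    · calc Y.2 ^ (k + 1) = Y.2 ^ k * Y.2 := pow_succ _ _
        _ = S * (R * Y.2) := by rw [f2, Matrix.mul_assoc]
        _ = S * (Z.2 * R) := by rw [f3]
        _ = S * S₁ * (R₁ * R) := by rw [e2]; simp only [Matrix.mul_assoc]
    · calc X.2 * (R₁ * R) = R₁ * ((S₁ * R₁) * R) := by rw [e1]; simp only [Matrix.mul_assoc]
        _ = R₁ * (R * Y.2) := by rw [← e2, f3]
        _ = R₁ * R * Y.2 := by simp only [Matrix.mul_assoc]
    · calc S * S₁ * X.2 = S * (S₁ * R₁) * S₁ := by rw [e1]; simp only [Matrix.mul_assoc]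
        _ = Y.2 * S * S₁ := by rw [← e2, f4]
        _ = Y.2 * (S * S₁) := by simp only [Matrix.mul_assoc]

theorem seN_of_sse {n m : ℕ} {A : Matrix (Fin n) (Fin n) ℕ} {D : Matrix (Fin m) (Fin m) ℕ}
    (h : SSE A D) : SE ℕ A D := by
  obtain ⟨k, h⟩ := h
  obtain ⟨R, S, h1, h2, h3, h4⟩ := h.isSE
  refine ⟨k + 1, by omega, R, S * A, ?_, ?_, h3, ?_⟩
  · rw [← Matrix.mul_assoc, ← h1, pow_succ]
  · rw [h4, Matrix.mul_assoc, ← h2, pow_succ']
  · rw [h4, ← h4, ← Matrix.mul_assoc, ← h4]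

theorem seZ_of_seN {n m : ℕ} {A : Matrix (Fin n) (Fin n) ℕ} {D : Matrix (Fin m) (Fin m) ℕ}
    (h : SE ℕ A D) : SE ℤ (toZ A) (toZ D) := by
  obtain ⟨l, hl, R, S, h⟩ := h
  exact ⟨l, hl, _, _, isSE_toZ h⟩

/-- the classification of the family -/
theorem classification {T a b : ℕ} (hT : 5 ≤ T) (ha : 1 ≤ a) (ha' : a ≤ T - 2) (hb : 1 ≤ b)
    (hb' : b ≤ T - 2) :
    List.TFAE [SSE (B T a) (B T b), SE ℕ (B T a) (B T b), SE ℤ (toZ (B T a)) (toZ (B T b)),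
      ∃ k l : ℕ, (2 ^ k * (a : ℤ) ≡ 2 ^ l * b [ZMOD 2 * T - 3]) ∨
        (2 ^ k * (a : ℤ) ≡ -(2 ^ l * b) [ZMOD 2 * T - 3])] := by
  tfae_have 1 → 2 := seN_of_sse
  tfae_have 2 → 3 := seZ_of_seN
  tfae_have 3 → 4 := by
    rintro ⟨l, _, R, S, h⟩
    rw [toZ_B ha' (by omega), toZ_B hb' (by omega)] at h
    exact mod_of_seZ (by exact_mod_cast (by omega : 1 ≤ T)) (by exact_mod_cast (by omega : a ≠ 0))
      (by exact_mod_cast (by omega : b ≠ 0)) h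
  tfae_have 4 → 1 := by
    rintro ⟨k, l, h⟩
    exact sse_of_mod hT ha ha' hb hb' h
  tfae_finish

theorem B_pos {T a : ℕ} (hT : 5 ≤ T) (ha : 1 ≤ a) (ha' : a ≤ T - 2) (i j : Fin 3) :
    0 < (B T a ^ 2) i j := by
  obtain ⟨x, hx⟩ : ∃ x, T = a + 2 + x := ⟨T - a - 2, by omega⟩
  subst hx
  rw [B_eq (x := x) (y := x + 2) (by omega) (by omega), pow_two]
  fin_cases i <;> fin_cases j <;> simp [Matrix.mul_apply, Fin.sum_univ_three] <;> omega

theorem B_le {T a : ℕ} (hT : 5 ≤ T) (ha : 1 ≤ a) (ha' : a ≤ T - 2) (i j : Fin 3) :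
    B T a i j ≤ T := by
  fin_cases i <;> fin_cases j <;> simp [B] <;> omega

end Pool.Agent.R775.SSE
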